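import Pool.Agent.H95.NV.Targets1

/-!
# Row HEC of the board `nva_modules`: products with the prime ideals of degree one
-/

set_option autoImplicit false

open NumberField
open scoped nonZeroDivisors

namespace Pool.Agent.H21.NV

open Pool.Agent.H95.NV
open Pool.Agent.H65.CM4 (Pl rv nm dk dg V2 Fo)
open Pool.Agent.H95.CM (Nr mem_Nr)

section

variable {k K : Type} [Field k] [NumberField k] [IsTotallyReal k] [Field K] [NumberField K]
  [Algebra k K] [Algebra.IsQuadraticExtension k K]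

omit [Algebra.IsQuadraticExtension k K] in
theorem not_real {f : Ideal (𝓞 k)} {D b₀ : 𝓞 k} {δ : K} (h : KD f D b₀ δ) (r : k) :
    δ ≠ algebraMap k K r := by
  intro hr
  have h1 := h.sq
  rw [hr, ← map_pow, ← map_neg] at h1
  have h2 : r ^ 2 = -(D : k) := (algebraMap k K).injective h1
  obtain ⟨v⟩ : Nonempty (Pl k) := inferInstance
  have h3 := congrArg (rv v) h2
  rw [map_pow, map_neg] at h3
  have h4 := h.pos v
  nlinarith [sq_nonneg (rv v r)]

theorem le_of {f : Ideal (𝓞 k)} {D b₀ : 𝓞 k} {δ : K} (hIDC : T_IDC) (h : KD f D b₀ δ)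
    {A A2 : Ideal (𝓞 k)} {b b2 : 𝓞 k} (h1 : Adm f D A b) (h2 : Adm f D A2 b2)
    (hle : Id f A2 b2 δ ≤ Id f A b δ) : ∃ x ∈ A * f, b2 = b + 2 * x := by
  have e1 := (hIDC k K f D b₀ δ h A b h1).2.2.1
  have e2 := (hIDC k K f D b₀ δ h A2 b2 h2).2.2.1
  have h3 : w b2 δ ∈ Lt f A2 b2 δ := ⟨0, Ideal.zero_mem _, 1, by simp⟩
  obtain ⟨t, ht, ht2⟩ := (e2 _).1 h3
  have h4 : w b2 δ ∈ Lt f A b δ := (e1 _).2 ⟨t, Ideal.mul_mono_right hle ht, ht2⟩
  obtain ⟨x, hx, y, hxy⟩ := h4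
  have h5 : algebraMap k K (b2 : k) + δ = 2 * algebraMap k K (x : k) +
      algebraMap k K (y : k) * (algebraMap k K (b : k) + δ) := by
    unfold w at hxy
    linear_combination 2 * hxy
  have h6 : (y : k) = 1 := by
    by_contra hy
    have h7 : (1 - (y : k)) ≠ 0 := sub_ne_zero.2 (Ne.symm hy)
    have h8 : algebraMap k K (1 - (y : k)) ≠ 0 := by
      rwa [Ne, map_eq_zero_iff _ (algebraMap k K).injective]
    apply not_real h ((2 * (x : k) + (y : k) * (b : k) - (b2 : k)) / (1 - (y : k)))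
    rw [map_div₀, eq_div_iff h8]
    simp only [map_sub, map_add, map_mul, map_one, map_ofNat]
    linear_combination h5
  rw [h6, map_one] at h5
  refine ⟨x, hx, ?_⟩
  have h9 : algebraMap k K (b2 : k) = algebraMap k K ((b + 2 * x : 𝓞 k) : k) := by
    rw [cadd, cmul]
    have : algebraMap k K ((2 : 𝓞 k) : k) = 2 := by
      have h10 : ((2 : 𝓞 k) : k) = 2 := by norm_cast
      rw [h10, map_ofNat]
    rw [this]
    linear_combination h5
  have h10 := (algebraMap k K).injective h9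
  exact RingOfIntegers.coe_injective h10

omit [IsTotallyReal k] [Algebra.IsQuadraticExtension k K] in
theorem map_le_of_norm {P : Ideal (𝓞 k)} {Q : Ideal (𝓞 K)}
    (h : Ideal.relNorm (𝓞 k) Q = P) : P.map (algebraMap (𝓞 k) (𝓞 K)) ≤ Q := by
  rw [Ideal.map_le_iff_le_comap, ← h]
  exact Ideal.relNorm_le_comap (R := 𝓞 k) Q

omit [NumberField k] [IsTotallyReal k] [NumberField K] [Algebra.IsQuadraticExtension k K] in
theorem id_mono {f A A' : Ideal (𝓞 k)} {b : 𝓞 k} {δ : K} (h : A ≤ A') :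
    Id f A b δ ≤ Id f A' b δ :=
  sup_le_sup_right (Ideal.map_mono h) _

end

theorem pf_HEC (hIDC : T_IDC) (hIDR : T_IDR) (hIDN : T_IDN) (hIDX : T_IDX) : T_HEC := by
  classical
  intro k K _ _ _ _ _ _ _ f D b₀ δ hKD A P b hA hPp hP0 S hS1 hS2 hS3
  have hfr : Module.finrank (𝓞 k) (𝓞 K) = 2 := by
    rw [← IsFractionRing.finrank_eq (𝓞 k) k (𝓞 K) K]
    exact Algebra.IsQuadraticExtension.finrank_eq_two k K
  have hmap0 : ∀ e : Ideal (𝓞 k), e ≠ ⊥ → e.map (algebraMap (𝓞 k) (𝓞 K)) ≠ ⊥ := by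
    intro e he
    rwa [Ne, Ideal.map_eq_bot_iff_of_injective (FaithfulSMul.algebraMap_injective (𝓞 k) (𝓞 K))]
  obtain ⟨-, hC2, -, -, hI0⟩ := hIDC k K f D b₀ δ hKD A b hA
  obtain ⟨hR1, -⟩ := hIDR k K f D b₀ δ hKD A b hA
  have hA0 : A ≠ ⊥ := hA.1
  refine ⟨?_, ?_⟩
  · intro j _ j' _ hjj hadm
    have h1 := (hIDC k K f D b₀ δ hKD (P * A) (b + 2 * j) hadm).2.1 (j' - j) (by
      have := neg_mem hjj
      rwa [neg_sub] at this)
    have h2 := h1.2.2
    have h3 : b + 2 * j + 2 * (j' - j) = b + 2 * j' := by ring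
    rwa [h3] at h2
  intro Φ
  obtain ⟨I, hI⟩ : ∃ I : Ideal (𝓞 K), I = Id f A b δ := ⟨_, rfl⟩
  obtain ⟨F, hF⟩ : ∃ F : 𝓞 k → Ideal (𝓞 K), ∀ j, F j = Id f (P * A) (b + 2 * j) δ :=
    ⟨_, fun _ => rfl⟩
  rw [← hI] at hI0 hR1 ⊢
  have hN0 : ∀ J : Ideal (𝓞 K), Ideal.relNorm (𝓞 k) J ≠ ⊥ → J ≠ ⊥ := by
    rintro J hJ rfl
    exact hJ (Ideal.relNorm_bot _)
  have hPA0 : P * A ≠ ⊥ := mul_ne_zero hP0 hA0
  have hNP : Ideal.relNorm (𝓞 k) (P.map (algebraMap (𝓞 k) (𝓞 K))) = P * P := by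
    rw [Ideal.relNorm_algebraMap, hfr, pow_two]
  have hinjS : Set.InjOn F S := by
    intro j hj j' hj' he
    rw [hF, hF] at he
    have h1 := hIDN k K f D b₀ δ hKD ⊤ ⊤ (P * A) (P * A) (b + 2 * j) (b + 2 * j') top_ne_bot
      top_ne_bot (hS1 j hj).2 (hS1 j' hj').2 (by rw [he])
    obtain ⟨t, ht, h2⟩ := h1.2.2
    refine hS2 j hj j' hj' ?_
    have h3 : j' = j + t := by
      have h4 : (2 : 𝓞 k) * j' = 2 * (j + t) := by linear_combination h2
      exact mul_left_cancel₀ two_ne_zero h4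
    rw [h3]
    have h5 : j - (j + t) = -t := by ring
    rw [h5]
    exact neg_mem ht
  have hinjN : Set.InjOn (fun Q : (Ideal (𝓞 K))⁰ => (Q : Ideal (𝓞 K)) * I) (Nr k K P) := by
    intro Q _ Q' _ he
    exact Subtype.ext (mul_right_cancel₀ hI0 he)
  -- ideals in the image
  have hmem : ∀ J : Ideal (𝓞 K), J ≤ I → Ideal.relNorm (𝓞 k) J = P * A →
      ∃ Q ∈ Nr k K P, (Q : Ideal (𝓞 K)) * I = J := by
    intro J hJ hN
    obtain ⟨Q, hQ⟩ := Ideal.dvd_iff_le.2 hJ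
    have hJ0 : J ≠ ⊥ := hN0 J (by rw [hN]; exact hPA0)
    have hQ0 : Q ≠ 0 := by
      rintro rfl
      apply hJ0
      rw [hQ, mul_zero]
      rfl
    refine ⟨⟨Q, mem_nonZeroDivisors_iff_ne_zero.2 hQ0⟩, ?_, ?_⟩
    · rw [mem_Nr]
      show Ideal.relNorm (𝓞 k) Q = P
      rw [hQ, map_mul, hR1, mul_comm] at hN
      exact mul_right_cancel₀ hA0 hN
    · show Q * I = J
      rw [hQ, mul_comm]
  have hSle : ∀ j ∈ S, F j ≤ I := by
    intro j hj
    rw [hF, hI]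
    refine (id_mono Ideal.mul_le_right).trans ?_
    rw [(hC2 j (hS1 j hj).1).1]
  have hSN : ∀ j ∈ S, Ideal.relNorm (𝓞 k) (F j) = P * A := by
    intro j hj
    rw [hF]
    exact (hIDR k K f D b₀ δ hKD (P * A) (b + 2 * j) (hS1 j hj).2).1
  -- classification
  have hcase : ∀ Q ∈ Nr k K P, (∃ j ∈ S, (Q : Ideal (𝓞 K)) * I = F j) ∨
      ∃ A' : Ideal (𝓞 k), A = P * A' ∧ (Q : Ideal (𝓞 K)) * I =
        P.map (algebraMap (𝓞 k) (𝓞 K)) * Id f A' b δ := by
    intro Q hQ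
    have hNQ := (mem_Nr k).1 hQ
    have hQ0 : (Q : Ideal (𝓞 K)) ≠ 0 := nonZeroDivisors.ne_zero Q.2
    obtain ⟨e, A2, b2, he0, hA2, hJ⟩ := hIDX k K f D b₀ δ hKD ((Q : Ideal (𝓞 K)) * I)
      (mul_ne_zero hQ0 hI0)
    have hR := hIDR k K f D b₀ δ hKD A2 b2 hA2
    by_cases he : e = ⊤
    · left
      rw [he, Ideal.map_top, Ideal.top_mul] at hJ
      have hA2' : A2 = P * A := by
        rw [← hR.1, ← hJ, map_mul, hNQ, hR1]
      obtain ⟨x, hx, hb2⟩ := le_of hIDC hKD hA hA2 (by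
        rw [← hJ, ← hI]
        exact Ideal.mul_le_right)
      rw [hA2', hb2] at hA2
      obtain ⟨j, hj, hxj⟩ := hS3 x hx hA2
      refine ⟨j, hj, ?_⟩
      have h1 := ((hIDC k K f D b₀ δ hKD (P * A) (b + 2 * j) (hS1 j hj).2).2.1 (x - j) hxj).1
      have h2 : b + 2 * j + 2 * (x - j) = b + 2 * x := by ring
      rw [h2] at h1
      rw [hJ, hA2', hb2, h1, hF]
    · right
      obtain ⟨Qt, hQt⟩ := Ideal.dvd_iff_le.2 (map_le_of_norm hNQ)
      have hQt0 : Qt ≠ 0 := by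
        rintro rfl
        rw [mul_zero] at hQt
        exact hmap0 P hP0 hQt
      have hJ10 : Id f A2 b2 δ ≠ 0 := (hIDC k K f D b₀ δ hKD A2 b2 hA2).2.2.2.2
      obtain ⟨e1, A3, b3, he1, hA3, hJ3⟩ := hIDX k K f D b₀ δ hKD (Qt * Id f A2 b2 δ)
        (mul_ne_zero hQt0 hJ10)
      have h1 : P.map (algebraMap (𝓞 k) (𝓞 K)) * Id f A b δ =
          (e * e1).map (algebraMap (𝓞 k) (𝓞 K)) * Id f A3 b3 δ := by
        rw [Ideal.map_mul, mul_assoc, ← hJ3, hQt, ← hI]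
        calc (Q : Ideal (𝓞 K)) * Qt * I = Qt * ((Q : Ideal (𝓞 K)) * I) := by
              rw [mul_comm (Q : Ideal (𝓞 K)) Qt, mul_assoc]
          _ = e.map (algebraMap (𝓞 k) (𝓞 K)) * (Qt * Id f A2 b2 δ) := by
              rw [hJ, mul_left_comm]
      obtain ⟨h2, -, -⟩ := hIDN k K f D b₀ δ hKD P (e * e1) A A3 b b3 hP0
        (mul_ne_zero he0 he1) hA hA3 h1
      have hirr := (Ideal.prime_of_isPrime hP0 hPp).irreducible
      have he1t : e1 = ⊤ := by
        rcases hirr.isUnit_or_isUnit h2 with h3 | h3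
        · exact absurd (Ideal.isUnit_iff.1 h3) he
        · exact Ideal.isUnit_iff.1 h3
      have heP : e = P := by rw [h2, he1t, Ideal.mul_top]
      rw [heP] at hJ
      have h4 : I = Qt * Id f A2 b2 δ := by
        have h5 : (Q : Ideal (𝓞 K)) * I = (Q : Ideal (𝓞 K)) * (Qt * Id f A2 b2 δ) := by
          rw [hJ, hQt, mul_assoc]
        exact mul_left_cancel₀ hQ0 h5
      have h6 : Ideal.relNorm (𝓞 k) Qt = P := by
        have h7 := hNP
        rw [hQt, map_mul, hNQ] at h7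
        exact mul_left_cancel₀ hP0 h7
      have h8 : A = P * A2 := by
        rw [← hR1, h4, map_mul, h6, hR.1]
      obtain ⟨x, hx, hb⟩ := le_of hIDC hKD hA2 hA (by
        rw [← hI, h4]
        exact Ideal.mul_le_right)
      refine ⟨A2, h8, ?_⟩
      have h9 := ((hIDC k K f D b₀ δ hKD A2 b2 hA2).2.1 x hx).1
      rw [← hb] at h9
      rw [hJ, h9]
  have hsum : ∑ Q ∈ Nr k K P, Φ ((Q : Ideal (𝓞 K)) * I) =
      ∑ J ∈ (Nr k K P).image (fun Q : (Ideal (𝓞 K))⁰ => (Q : Ideal (𝓞 K)) * I), Φ J :=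
    (Finset.sum_image hinjN).symm
  have hsumS : ∑ j ∈ S, Φ (Id f (P * A) (b + 2 * j) δ) = ∑ J ∈ S.image F, Φ J := by
    rw [Finset.sum_image hinjS]
    exact Finset.sum_congr rfl fun j _ => by rw [hF]
  refine ⟨?_, ?_⟩
  · intro A' hAA'
    have hA'0 : A' ≠ ⊥ := by
      rintro rfl
      apply hA0
      rw [hAA']
      exact mul_zero P
    have hle : A ≤ A' := by
      rw [hAA']
      exact Ideal.mul_le_right
    have hadm : Adm f D A' b := by
      obtain ⟨-, hb, c, hc, hcb⟩ := hA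
      exact ⟨hA'0, hb, c, Ideal.mul_mono_left hle hc, hcb⟩
    refine ⟨hadm, ?_⟩
    have hR' := hIDR k K f D b₀ δ hKD A' b hadm
    obtain ⟨J0, hJ0⟩ : ∃ J0 : Ideal (𝓞 K), J0 = P.map (algebraMap (𝓞 k) (𝓞 K)) *
      Id f A' b δ := ⟨_, rfl⟩
    have hJ0N : Ideal.relNorm (𝓞 k) J0 = P * A := by
      rw [hJ0, map_mul, hNP, hR'.1, mul_assoc, ← hAA']
    have hJ0le : J0 ≤ I := by
      have h1 : I ≤ Id f A' b δ := by
        rw [hI]
        exact id_mono hle
      obtain ⟨Q2, hQ2⟩ := Ideal.dvd_iff_le.2 h1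
      have h2 : Ideal.relNorm (𝓞 k) Q2 = P := by
        have h3 := hR1
        rw [hQ2, map_mul, hR'.1, hAA', mul_comm P A'] at h3
        exact mul_left_cancel₀ hA'0 h3
      obtain ⟨Q3, hQ3⟩ := Ideal.dvd_iff_le.2 (map_le_of_norm h2)
      have h4 : J0 = Q3 * I := by
        rw [hJ0, hQ3, hQ2, mul_comm (Id f A' b δ) Q2, ← mul_assoc, mul_comm Q2 Q3]
      rw [h4]
      exact Ideal.mul_le_right
    have hJ0S : J0 ∉ S.image F := by
      intro h
      obtain ⟨j, hj, h1⟩ := Finset.mem_image.1 h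
      have h2 := (hIDR k K f D b₀ δ hKD (P * A) (b + 2 * j) (hS1 j hj).2).2 P (by
        rw [← hF, h1, hJ0]
        exact Ideal.mul_le_left)
      exact hPp.ne_top h2
    have himg : (Nr k K P).image (fun Q : (Ideal (𝓞 K))⁰ => (Q : Ideal (𝓞 K)) * I) =
        insert J0 (S.image F) := by
      ext J
      rw [Finset.mem_insert, Finset.mem_image, Finset.mem_image]
      constructor
      · rintro ⟨Q, hQ, rfl⟩
        rcases hcase Q hQ with ⟨j, hj, h1⟩ | ⟨A2, h1, h2⟩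
        · right
          exact ⟨j, hj, h1.symm⟩
        · left
          have h3 : A2 = A' := by
            rw [hAA'] at h1
            exact (mul_left_cancel₀ hP0 h1).symm
          show (Q : Ideal (𝓞 K)) * I = J0
          rw [h2, h3, hJ0]
      · rintro (rfl | ⟨j, hj, rfl⟩)
        · exact hmem _ hJ0le hJ0N
        · exact hmem _ (hSle j hj) (hSN j hj)
    rw [hsum, hsumS, himg, Finset.sum_insert hJ0S, hJ0]
  · intro hPA
    have himg : (Nr k K P).image (fun Q : (Ideal (𝓞 K))⁰ => (Q : Ideal (𝓞 K)) * I) =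
        S.image F := by
      ext J
      rw [Finset.mem_image, Finset.mem_image]
      constructor
      · rintro ⟨Q, hQ, rfl⟩
        rcases hcase Q hQ with ⟨j, hj, h1⟩ | ⟨A2, h1, h2⟩
        · exact ⟨j, hj, h1.symm⟩
        · exact absurd ⟨A2, h1⟩ hPA
      · rintro ⟨j, hj, rfl⟩
        exact hmem _ (hSle j hj) (hSN j hj)
    rw [hsum, hsumS, himg]

end Pool.Agent.H21.NV
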